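import Mathlib
import Pool.Agent.Helper704.RB.E

open MeasureTheory

namespace Pool.Agent.Results.MP_28e115_an.RadialImages

/-- For every n larger than 1 and every finite Borel measure on the unit sphere of complex
n-space there is a holomorphic function on the open unit ball, bounded by 1, whose image of the
radius ending at almost every point of the sphere has infinite length. -/
theorem result (n : ℕ) (hn : 1 < n)
    (μ : Measure (Metric.sphere (0 : EuclideanSpace ℂ (Fin n)) 1)) [IsFiniteMeasure μ] :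
    ∃ f : EuclideanSpace ℂ (Fin n) → ℂ,
      DifferentiableOn ℂ f (Metric.ball 0 1) ∧
      (∀ z ∈ Metric.ball (0 : EuclideanSpace ℂ (Fin n)) 1, ‖f z‖ ≤ 1) ∧
      ∀ᵐ ζ : Metric.sphere (0 : EuclideanSpace ℂ (Fin n)) 1 ∂μ, ∫⁻ r in Set.Ioo (0 : ℝ) 1,
        ‖deriv (fun t : ℝ => f ((t : ℂ) • (ζ : EuclideanSpace ℂ (Fin n)))) r‖ₑ = ⊤ :=
  Pool.Agent.Helper704.RadBall.main hn μ

end Pool.Agent.Results.MP_28e115_an.RadialImages
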